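import Pool.Agent.MNT.StmtsG

set_option autoImplicit false

/-!
# MNT, row TH1: bounded height of a configuration
-/

namespace Pool.Agent.MNT.H7

open Polynomial NumberField
open Pool.Agent.MNT

theorem card_RR (g : ℕ) : (RR g).card = 2 * g + 1 := by
  have h : RR g = Finset.univ.map (Function.Embedding.inl (α := Fin (2 * g + 1))
      (β := Fin (4 * g + 8))) := by
    ext p
    rcases p with p | p
    · simp [RR]
    · simp [RR]
  rw [h, Finset.card_map, Finset.card_univ, Fintype.card_fin]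

theorem th1 (hH : HgtStmt) (hP : PelStmt) : Th1Stmt := by
  intro g hg
  obtain ⟨H, hH1, hH2⟩ := hH g hg
  refine ⟨H, hH1, ?_⟩
  intro K _ _ z e y hc
  have hdeg : (FF e (RR g) z).natDegree = 2 * g + 1 := by
    unfold FF
    rw [natDegree_C_mul hc.e_ne, natDegree_prod _ _ fun p _ => X_sub_C_ne_zero _]
    simp [card_RR]
  have hodd : Odd (FF e (RR g) z).natDegree := by
    rw [hdeg]
    exact ⟨g, rfl⟩
  have hev : ∀ x, x ∉ RR g → (FF e (RR g) z).eval (z x) ≠ 0 := by
    intro x hx
    unfold FF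
    rw [eval_mul, eval_C, eval_prod]
    refine mul_ne_zero hc.e_ne (Finset.prod_ne_zero_iff.2 fun p hp => ?_)
    rw [eval_sub, eval_X, eval_C]
    intro h
    have := hc.inj (sub_eq_zero.1 h)
    exact hx (this ▸ hp)
  have hy : ∀ x, x ∉ RR g → y x ≠ 0 := by
    intro x hx h
    apply hev x hx
    rw [← hc.pt x hx, h]
    ring
  have key : ∀ x, ∃ (N : ℕ) (U W : K[X]) (c : K), x ∉ RR g →
      IsSol (FF e (RR g) z) (z x) N U W c := by
    intro x
    by_cases hx : x ∈ RR g
    · exact ⟨0, 0, 0, 0, fun h => absurd hx h⟩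
    · obtain ⟨N, hN⟩ := hc.tor x hx
      obtain ⟨U, W, c, h⟩ := hP K (FF e (RR g) z) (z x) (y x) N two_ne_zero hodd (hc.pt x hx)
        (hy x hx) hN
      exact ⟨N, U, W, c, fun _ => h⟩
  choose N U W c hs using key
  exact hH2 K z hc.inj e N U W c hc.e_ne hs

end Pool.Agent.MNT.H7
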